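import Pool.Agent.G02.Stmts

/-! # G02: row GDB -/

set_option autoImplicit false

namespace Pool.Agent.G02.H51

open Pool.Agent.G02

theorem not_sq_mul {p r : ℕ} (hp : p.Prime) (hr : ¬ p ∣ r) : ¬ IsSquare ((p * r : ℕ) : ℚ) := by
  intro h
  rw [Rat.isSquare_natCast_iff] at h
  obtain ⟨s, hs⟩ := h
  have h1 : p ∣ s * s := by rw [← hs]; exact dvd_mul_right _ _
  have h2 : p ∣ s := by rcases hp.dvd_mul.1 h1 with h | h <;> exact h
  obtain ⟨c, rfl⟩ := h2
  have h3 : p * r = p * (p * (c * c)) := by rw [hs]; ring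
  exact hr ⟨c * c, Nat.eq_of_mul_eq_mul_left hp.pos h3⟩

theorem gdb (hTrb : TrbStmt) (hScl : SclStmt) : GdbStmt := by
  refine ⟨?_, ?_⟩
  · intro k p q r _ hB hk hl
    have hp0 : (0 : ℚ) < p := by exact_mod_cast hB.pp.pos
    have hq0 : (0 : ℚ) < q := by exact_mod_cast hB.pq.pos
    have hq : (q : ℚ) ≠ 0 := hq0.ne'
    have hr : (r : ℚ) = p + 2 * q := by exact_mod_cast hB.hr
    have hrn : r = p + 2 * q := by exact_mod_cast hB.hr
    refine ⟨?_, ?_, ?_, ?_⟩
    · intro h0
      have h1 : k = 0 := by exact_mod_cast h0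
      rw [h1] at hk
      norm_num at hk
    · intro h0
      have h1 := h0.nonneg
      have h2 : (0 : ℚ) < 2 * p / q := by positivity
      linarith
    · have hpr : ¬ p ∣ r := by
        intro hd
        have h1 := (Nat.prime_dvd_prime_iff_eq hB.pp hB.pr).1 hd
        have h2 := hB.pq.pos
        omega
      intro h0
      apply not_sq_mul hB.pp hpr
      obtain ⟨s, hs⟩ := h0
      refine ⟨s * q / 2, ?_⟩
      have h1 : s * s = 4 * p * r / q ^ 2 := by
        rw [← hs, hr]
        field_simp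
        ring
      have h2 : s * q / 2 * (s * q / 2) = (s * s) * q ^ 2 / 4 := by ring
      rw [h2, h1]
      push_cast
      field_simp
    · have h1 := hTrb.1 k p q r hB hk hl
      rw [← hScl _ _ (q : ℚ) hq]
      have e1 : (k : ℚ) * -(2 * p / q) * q ^ 2 = ((-(2 * k * p * q) : ℤ) : ℚ) := by
        push_cast
        field_simp
      have e2 : (k : ℚ) ^ 2 * -(2 * p / q) * q ^ 4 = ((-(2 * k ^ 2 * p * q ^ 3) : ℤ) : ℚ) := by
        push_cast
        field_simp
      rw [e1, e2]
      exact h1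
  · intro p q r hC
    have hp0 : (0 : ℚ) < p := by exact_mod_cast hC.pp.pos
    have hq0 : (0 : ℚ) < q := by exact_mod_cast hC.pq.pos
    have hr0 : (0 : ℚ) < r := by exact_mod_cast hC.pr.pos
    have hq : (q : ℚ) ≠ 0 := hq0.ne'
    have hr : (r : ℚ) = 8 * q - p := by exact_mod_cast hC.hr
    refine ⟨two_ne_zero, ?_, ?_, ?_⟩
    · have hpq : ¬ p ∣ 2 * q := by
        intro hd
        have hmp := hC.mp
        have hmq := hC.mq
        rcases hC.pp.dvd_mul.1 hd with h | h
        · have h1 := (Nat.prime_dvd_prime_iff_eq hC.pp Nat.prime_two).1 h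
          omega
        · have h1 := (Nat.prime_dvd_prime_iff_eq hC.pp hC.pq).1 h
          omega
      intro h0
      apply not_sq_mul hC.pp hpq
      obtain ⟨s, hs⟩ := h0
      refine ⟨s * (2 * q), ?_⟩
      have h2 : s * (2 * q) * (s * (2 * q)) = (s * s) * (2 * q) ^ 2 := by ring
      rw [h2, ← hs]
      push_cast
      field_simp
    · intro h0
      have h1 := h0.nonneg
      have h2 : (p : ℚ) / (2 * q) * (p / (2 * q) - 4) = -(p * r / (4 * q ^ 2)) := by
        rw [hr]
        field_simp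
        ring
      have h3 : (0 : ℚ) < p * r / (4 * q ^ 2) := by positivity
      linarith
    · have h1 := hTrb.2 p q r hC
      rw [← hScl _ _ (q : ℚ) hq]
      have e1 : (2 : ℚ) * (p / (2 * q)) * q ^ 2 = ((p * q : ℤ) : ℚ) := by
        push_cast
        field_simp
      have e2 : (2 : ℚ) ^ 2 * (p / (2 * q)) * q ^ 4 = ((2 * p * q ^ 3 : ℤ) : ℚ) := by
        push_cast
        field_simp
      rw [e1, e2]
      exact h1

end Pool.Agent.G02.H51
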