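import Pool.Agent.G02.StmtsS
import Pool.Agent.Helper84_GT.E_PLR

/-! # G02: row TO1 -/

set_option autoImplicit false

namespace Pool.Agent.G02.H51

open Polynomial Pool.Agent.NJ Pool.Agent.GT.F Pool.Agent.G02

theorem to1 : To1Stmt := by
  classical
  intro E hE h2
  have hinj : Function.Injective (algebraMap ℚ[X] (RatFunc ℚ)) :=
    IsFractionRing.injective ℚ[X] (RatFunc ℚ)
  obtain ⟨P, hP0, hP2⟩ := h2
  obtain ⟨x, hx⟩ : ∃ x : RatFunc ℚ, 4 * x ^ 3 + (gen E).b₂ * x ^ 2 + 2 * (gen E).b₄ * x +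
      (gen E).b₆ = 0 := by
    rw [two_nsmul] at hP2
    have h3 := eq_neg_of_add_eq_zero_left hP2
    rcases P with _ | ⟨x, y, hn⟩
    · exact absurd rfl hP0
    · rw [WeierstrassCurve.Affine.Point.neg_some] at h3
      have h4 := ((WeierstrassCurve.Affine.Point.some.injEq ..).mp h3).2
      have h5 := ((gen E).toAffine.equation_iff x y).1 hn.1
      rw [WeierstrassCurve.Affine.negY] at h4
      refine ⟨x, ?_⟩
      have h6 : 2 * y + (gen E).a₁ * x + (gen E).a₃ = 0 := by linear_combination h4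
      rw [WeierstrassCurve.b₂, WeierstrassCurve.b₄, WeierstrassCurve.b₆]
      linear_combination (2 * y + (gen E).a₁ * x + (gen E).a₃) * h6 - 4 * h5
  have hb2 : (gen E).b₂ = algebraMap ℚ[X] (RatFunc ℚ) E.b₂ := WeierstrassCurve.map_b₂ _ _
  have hb4 : (gen E).b₄ = algebraMap ℚ[X] (RatFunc ℚ) E.b₄ := WeierstrassCurve.map_b₄ _ _
  have hb6 : (gen E).b₆ = algebraMap ℚ[X] (RatFunc ℚ) E.b₆ := WeierstrassCurve.map_b₆ _ _
  rw [hb2, hb4, hb6] at hx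
  obtain ⟨f, hf⟩ := Pool.Agent.GT.OF.H84.pol E (e := x) (by linear_combination 16 * hx)
  have hf2 : 4 * f ^ 3 + E.b₂ * f ^ 2 + 2 * E.b₄ * f + E.b₆ = 0 := by
    apply hinj
    rw [map_zero, ← hx, ← hf]
    simp only [map_mul, map_add, map_pow, map_ofNat]
  have c4 : (4 : ℚ[X]) * C (1 / 4) = 1 := by
    have h1 : (4 : ℚ[X]) = C 4 := rfl
    rw [h1, ← C_mul, ← C_1]
    norm_num
  have c2 : (2 : ℚ[X]) * C (1 / 2) = 1 := by
    have h1 : (2 : ℚ[X]) = C 2 := rfl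
    rw [h1, ← C_mul, ← C_1]
    norm_num
  obtain ⟨a, ha⟩ : ∃ a : ℚ[X], 4 * a = E.b₂ + 12 * f :=
    ⟨C (1 / 4) * (E.b₂ + 12 * f), by rw [← mul_assoc, c4, one_mul]⟩
  obtain ⟨b, hb⟩ : ∃ b : ℚ[X], 2 * b = E.b₄ - 6 * f ^ 2 + 4 * a * f :=
    ⟨C (1 / 2) * (E.b₄ - 6 * f ^ 2 + 4 * a * f), by rw [← mul_assoc, c2, one_mul]⟩
  refine ⟨f, a, b, ?_, ?_, ?_⟩
  · linear_combination -ha
  · linear_combination -hb
  · linear_combination hf2 + f ^ 2 * ha + 2 * f * hb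

end Pool.Agent.G02.H51
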